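import Mathlib
import Pool.Agent.V11104.MM.LD

set_option autoImplicit false

/-!
# Large deviations of the local maxima of zeta

The local maxima of `|ζ(1/2 + it)|` over intervals of length one exceed `(log T)^V` with probability
`(log T)^(1 - V² + o(1))` for `V > √2`: lower bounds of this form are proved for the local maxima themselves,
upper bounds for all `V ≥ 0` for the maxima over the points of a set `E` whose complement has small proportion.

Upper bounds: the powers of zeta on `E` are majorized by local averages of a function whose mean is at most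
`C (log T)^(V² + 1)`. Lower bounds: the second moment method for the measure of the points where `|ζ|` lies in a
narrow window near `(log T)^V`; the second moment is bounded by that of the integrals of `|ζ|^V` over intervals of
length one.
-/

namespace Pool.Agent.Results.MP_abec59_nt.LargeDeviations

open Filter MeasureTheory

/-- **Theorem.** For all `K ≥ 0`, `θ > 0` and `ε > 0` there are a measurable set `E` of real numbers and constants
`c, C > 0` such that: for every `0 ≤ α < 1`, all large `T` and all `T / (log T)^α ≤ H ≤ T` the set `E` contains at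
least `(1 - ε) H` of the points of `[T, T+H]`; for all large `T`, all `T^θ ≤ H ≤ T` and all `0 ≤ V ≤ K` the measure
of the `t` in `[T, T+H]` for which `|ζ(1/2 + i(t + u))| ≥ (log T)^V` for some `u` in `[0, 1]` with `t + u` in `E`
is at most `C H (log T)^(1 - V²)`; and for every `0 ≤ α < 1`, all large `T`, all `T / (log T)^α ≤ H ≤ T` and all
`0 ≤ V ≤ K` with `V² > 2` it is at least `c (V² - 2) H (log T)^(1 - V²) exp(-C √(log log T))`. -/
theorem result (K θ ε : ℝ) (hK : 0 ≤ K) (hθ : 0 < θ) (hε : 0 < ε) :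
    ∃ (E : Set ℝ) (c C : ℝ), MeasurableSet E ∧ 0 < c ∧ 0 < C ∧
    (∀ α : ℝ, 0 ≤ α → α < 1 → ∀ᶠ T : ℝ in atTop, ∀ H : ℝ, T / Real.log T ^ α ≤ H → H ≤ T →
      (1 - ε) * H ≤ volume.real (Set.Icc T (T + H) ∩ E)) ∧
    (∀ᶠ T : ℝ in atTop, ∀ H : ℝ, T ^ θ ≤ H → H ≤ T → ∀ V : ℝ, 0 ≤ V → V ≤ K →
      volume.real {t : ℝ | t ∈ Set.Icc T (T + H) ∧ ∃ u ∈ Set.Icc (0:ℝ) 1, t + u ∈ E ∧
        Real.log T ^ V ≤ ‖riemannZeta (1 / 2 + ((t + u : ℝ) : ℂ) * Complex.I)‖} ≤
          C * H * Real.log T ^ (1 - V ^ 2)) ∧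
    ∀ α : ℝ, 0 ≤ α → α < 1 → ∀ᶠ T : ℝ in atTop, ∀ H : ℝ, T / Real.log T ^ α ≤ H → H ≤ T →
      ∀ V : ℝ, 0 ≤ V → V ≤ K → 2 < V ^ 2 →
        c * (V ^ 2 - 2) * H * Real.log T ^ (1 - V ^ 2) * Real.exp (-(C * Real.sqrt (Real.log (Real.log T)))) ≤
          volume.real {t : ℝ | t ∈ Set.Icc T (T + H) ∧ ∃ u ∈ Set.Icc (0:ℝ) 1, t + u ∈ E ∧
            Real.log T ^ V ≤ ‖riemannZeta (1 / 2 + ((t + u : ℝ) : ℂ) * Complex.I)‖} :=
  Pool.Agent.V11104.MM.large K θ ε hK hθ hε

end Pool.Agent.Results.MP_abec59_nt.LargeDeviations
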